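import Mathlib

/-!
# Permutation groups of prime degree and doubly transitive groups: the translates of a set

`W` is a subspace of the space of functions on a finite set `ι` which is stable under a group `G` which
acts on `ι`, and contains the characteristic function of a proper nonempty subset. If `G` is doubly
transitive, or transitive with `|ι|` prime, then `W` is the whole space.
-/

set_option autoImplicit false
set_option linter.unusedSectionVars false

namespace Pool.Agent.H320R.OH

open Polynomial Finset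

/-- sums of different roots of unity of prime order -/
theorem sum_ne_zero {n : ℕ} (hn : n.Prime) {ζ : ℂ} (hζ : ζ ^ n = 1) (A : Finset (Fin n))
    (hA : A.Nonempty) (hA' : A ≠ univ) : ∑ k ∈ A, ζ ^ (k : ℕ) ≠ 0 := by
  classical
  intro h0
  by_cases h1 : ζ = 1
  · rw [h1] at h0
    simp only [one_pow, sum_const, nsmul_eq_mul, mul_one, Nat.cast_eq_zero] at h0
    exact hA.ne_empty (card_eq_zero.1 h0)
  have hprim : IsPrimitiveRoot ζ n := by
    have h2 : orderOf ζ = n := orderOf_eq_prime hζ h1 (hp := ⟨hn⟩)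
    rw [← h2]
    exact IsPrimitiveRoot.orderOf ζ
  set F : ℚ[X] := ∑ k ∈ A, X ^ (k : ℕ) with hF
  have hev : aeval ζ F = 0 := by
    rw [hF, map_sum]
    simpa using h0
  have hdvd : minpoly ℚ ζ ∣ F := minpoly.dvd ℚ ζ hev
  rw [← cyclotomic_eq_minpoly_rat hprim hn.pos] at hdvd
  have hcoef : ∀ m : Fin n, F.coeff m = if m ∈ A then 1 else 0 := by
    intro m
    rw [hF, finset_sum_coeff]
    simp only [coeff_X_pow]
    have : ∀ k : Fin n, ((m : ℕ) = (k : ℕ)) ↔ m = k := fun k => Fin.val_inj
    simp only [this]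
    rw [Finset.sum_ite_eq]
  obtain ⟨a, ha⟩ := hA
  obtain ⟨b, hb⟩ : ∃ b, b ∉ A := by
    by_contra hcon
    push Not at hcon
    exact hA' (eq_univ_of_forall hcon)
  have hF0 : F ≠ 0 := by
    intro h
    have := hcoef a
    rw [h, coeff_zero, if_pos ha] at this
    exact zero_ne_one this
  obtain ⟨c, hc⟩ := hdvd
  have hc0 : c ≠ 0 := by
    rintro rfl
    rw [mul_zero] at hc
    exact hF0 hc
  have hdegF : F.natDegree ≤ n - 1 := by
    rw [hF]
    refine natDegree_sum_le_of_forall_le _ _ fun k _ => ?_
    rw [natDegree_X_pow]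
    have := k.2
    omega
  have hdegc : c.natDegree = 0 := by
    have h2 := congrArg natDegree hc
    rw [natDegree_mul (cyclotomic_ne_zero n ℚ) hc0, natDegree_cyclotomic,
      Nat.totient_prime hn] at h2
    omega
  rw [eq_C_of_natDegree_eq_zero hdegc] at hc
  have h3 : ∀ m : Fin n, F.coeff m = c.coeff 0 := by
    intro m
    have : Fact n.Prime := ⟨hn⟩
    rw [hc, coeff_mul_C, cyclotomic_prime ℚ n, finset_sum_coeff]
    simp only [coeff_X_pow]
    rw [Finset.sum_ite_eq, if_pos (mem_range.2 m.2), one_mul]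
  have h4 := h3 a
  have h5 := h3 b
  rw [hcoef, if_pos ha] at h4
  rw [hcoef, if_neg hb] at h5
  rw [← h5] at h4
  exact one_ne_zero h4

/-- a function on `Fin n` whose sums over the translates of `A` are zero -/
theorem eq_zero_of_conv {n : ℕ} (hn : n.Prime) (A : Finset (Fin n)) (hA : A.Nonempty)
    (hA' : A ≠ univ) (y : ℕ → ℂ) (hper : ∀ m, y (m + n) = y m)
    (h : ∀ s : ℕ, ∑ k ∈ A, y (s + (k : ℕ)) = 0) : ∀ m < n, y m = 0 := by
  classical
  -- the polynomial with coefficients `y`
  set P : ℂ[X] := ∑ m ∈ range n, C (y m) * X ^ m with hP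
  have hcoef : ∀ m < n, P.coeff m = y m := by
    intro m hm
    rw [hP, finset_sum_coeff]
    simp only [coeff_C_mul, coeff_X_pow, mul_ite, mul_one, mul_zero]
    rw [Finset.sum_ite_eq, if_pos (mem_range.2 hm)]
  have hev : ∀ ζ : ℂ, ζ ^ n = 1 → P.eval ζ = 0 := by
    intro ζ hζ
    have hζ0 : ζ ≠ 0 := by
      rintro rfl
      rw [zero_pow hn.ne_zero] at hζ
      exact zero_ne_one hζ
    have hsum : ∑ k ∈ A, (ζ⁻¹) ^ (k : ℕ) ≠ 0 :=
      sum_ne_zero hn (by rw [inv_pow, hζ, inv_one]) A hA hA'
    -- shifted sums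
    have hshift : ∀ k : ℕ, ∑ s ∈ range n, y (s + k) * ζ ^ (s + k) = ∑ s ∈ range n, y s * ζ ^ s := by
      intro k
      induction k with
      | zero => simp
      | succ k ih =>
        rw [← ih]
        have h1 : ∀ g : ℕ → ℂ, g n = g 0 → ∑ s ∈ range n, g (s + 1) = ∑ s ∈ range n, g s := by
          intro g hg
          have h2 := Finset.sum_range_succ g n
          have h3 := Finset.sum_range_succ' g n
          rw [h2, hg] at h3
          exact (add_right_cancel h3).symm
        have h2 := h1 (fun s => y (s + k) * ζ ^ (s + k)) (by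
          simp only [zero_add]
          rw [add_comm n k, hper, pow_add, hζ, mul_one])
        rw [← h2]
        refine Finset.sum_congr rfl fun s _ => ?_
        rw [show s + (k + 1) = s + 1 + k by ring]
    have h3 : (∑ k ∈ A, (ζ⁻¹) ^ (k : ℕ)) * ∑ s ∈ range n, y s * ζ ^ s = 0 := by
      rw [Finset.sum_mul]
      have h4 : ∀ k ∈ A, (ζ⁻¹) ^ (k : ℕ) * ∑ s ∈ range n, y s * ζ ^ s =
          ∑ s ∈ range n, y (s + k) * ζ ^ s := by
        intro k _
        rw [← hshift k, Finset.mul_sum]
        refine Finset.sum_congr rfl fun s _ => ?_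
        rw [pow_add, inv_pow]
        field_simp
      rw [Finset.sum_congr rfl h4, Finset.sum_comm]
      refine Finset.sum_eq_zero fun s _ => ?_
      rw [← Finset.sum_mul, h s, zero_mul]
    have h4 := (mul_eq_zero.1 h3).resolve_left hsum
    rw [hP, eval_finset_sum]
    simpa using h4
  have hdeg : P.degree < n := by
    rw [hP]
    refine (degree_sum_le _ _).trans_lt ?_
    rw [Finset.sup_lt_iff (by exact_mod_cast WithBot.bot_lt_coe n)]
    intro m hm
    refine (degree_C_mul_X_pow_le m (y m)).trans_lt ?_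
    exact_mod_cast mem_range.1 hm
  have hP0 : P = 0 := by
    have hprim := Complex.isPrimitiveRoot_exp n hn.ne_zero
    refine eq_zero_of_degree_lt_of_eval_finset_eq_zero (s := nthRootsFinset n (1 : ℂ)) ?_ ?_
    · rw [hprim.card_nthRootsFinset]
      exact hdeg
    · intro x hx
      exact hev x ((mem_nthRootsFinset hn.pos 1).1 hx)
  intro m hm
  rw [← hcoef m hm, hP0, coeff_zero]

end Pool.Agent.H320R.OH
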