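import Pool.Agent.H320R.OH.Poly
import Pool.Agent.Y115.ST.Gal

/-!
# The determinants of the stable subspaces, and irreducibility
-/

set_option autoImplicit false
set_option linter.unusedSectionVars false

namespace Pool.Agent.H320R.OH

open NumberField Pool.Agent.W569.FM Pool.Agent.W571.FM Pool.Agent.Y115.R
open Pool.Agent.Y115.T Pool.Agent.Y115.Chi Pool.Agent.Y115.CQ Polynomial Module
open Pool.Agent.Y115.ST
open Pool.Agent.Y115 (B.continuous_dt')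

variable {ℓ : ℕ} [hℓ : Fact ℓ.Prime] {n : ℕ}

/-- **The determinants of the stable subspaces at the good primes.** -/
theorem slopes (ρ : GF ℚ →* GL (Fin n) (PadicAlgCl ℓ)) (hρ : Continuous ρ)
    (ι : PadicAlgCl ℓ →+* ℂ) (T : Set ℕ) (hT3 : 3 ≤ T.encard)
    (hT : ∀ p ∈ T, p.Prime ∧ p ≠ ℓ) (S : ℕ → Multiset ℂ)
    (hgood : ∀ p ∈ T, ∀ Q : Ideal (OO ℚ), Q.IsPrime → (p : OO ℚ) ∈ Q → ∀ g, FrobAt p Q g →
      (((ρ g⁻¹ : GL (Fin n) (PadicAlgCl ℓ)) :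
        Matrix (Fin n) (Fin n) (PadicAlgCl ℓ)).charpoly.map ι).roots = S p)
    (halg : ∀ p ∈ T, ∀ a ∈ S p, IsAlgebraic ℚ a)
    (U : Submodule (PadicAlgCl ℓ) (Fin n → PadicAlgCl ℓ))
    (hU : ∀ g, U ≤ U.comap (act ρ g)) :
    ∃ (N : ℕ) (a : ℤ), 0 < N ∧ ∀ p ∈ T, ∃ A : Multiset ℂ, A ≤ S p ∧
      Multiset.card A = finrank (PadicAlgCl ℓ) U ∧ A.prod ^ N = (p : ℂ) ^ a := by
  classical
  -- three primes
  obtain ⟨t, htT, ht3⟩ := Set.exists_subset_encard_eq hT3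
  have htfin : t.Finite := Set.finite_of_encard_eq_coe ht3
  have htc : Nat.card t = 3 := by
    have h1 : Nat.card t = t.ncard := Nat.card_coe_set_eq t
    have h2 : (t.ncard : ℕ∞) = 3 := by rw [htfin.cast_ncard_eq]; exact ht3
    rw [h1]
    exact_mod_cast h2
  have hfin : Finite t := htfin
  obtain ⟨e⟩ : Nonempty (Fin 3 ≃ t) := by
    rw [← htc]
    exact ⟨(Finite.equivFin t).symm⟩
  set l : Fin 3 → ℕ := fun i => (e i : ℕ) with hl
  have hlT : ∀ i, l i ∈ T := fun i => htT (e i).2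
  have hchoose : ∀ p : ℕ, p.Prime → ∃ (P : Ideal (OO ℚ)) (σ : GF ℚ), P.IsMaximal ∧
    (p : OO ℚ) ∈ P ∧ FrobAt p P σ := fun p hp => exists_frobQ hp
  choose P σ hP hpP hσ using hchoose
  -- the eigenvalues
  have hAex : ∀ (p : ℕ) (hp : p ∈ T), ∃ A : Multiset ℂ,
      Multiset.card A = finrank (PadicAlgCl ℓ) U ∧ A ≤ S p ∧
        A.prod = ι (dt ρ U hU (σ p (hT p hp).1)⁻¹ : PadicAlgCl ℓ) := by
    intro p hp
    obtain ⟨A, hA1, hA2, hA3⟩ := exists_eig ρ ι U hU (σ p (hT p hp).1)⁻¹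
    rw [hgood p hp _ (hP p (hT p hp).1).isPrime (hpP p (hT p hp).1) _ (hσ p (hT p hp).1)] at hA2
    exact ⟨A, hA1, hA2, hA3⟩
  have hchar : ∃ (M : ℕ) (a : ℤ), 0 < M ∧
      ∀ (q : ℕ) (Q : Ideal (OO ℚ)) (φ : GF ℚ), Q.IsPrime → (ℓ : OO ℚ) ∉ Q → FrobAt q Q φ →
        (dt ρ U hU φ : PadicAlgCl ℓ) ^ M = (q : PadicAlgCl ℓ) ^ a := by
    refine char_bar ℓ (dt ρ U hU) (B.continuous_dt' ρ hρ U hU) l (fun i => (hT _ (hlT i)).1)
      (fun i j hij => e.injective (Subtype.ext hij)) (fun i => (hT _ (hlT i)).2)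
      (fun i => P (l i) (hT _ (hlT i)).1) (fun i => (hP _ _).isPrime) (fun i => hpP _ _)
      (fun i => σ (l i) (hT _ (hlT i)).1) (fun i => hσ _ _) fun i => ?_
    obtain ⟨A, -, hA2, hA3⟩ := hAex (l i) (hlT i)
    have h1 : IsAlgebraic ℚ A.prod := Pool.Agent.Y115.M.isAlgebraic_multiset_prod fun a ha =>
      halg _ (hlT i) a (Multiset.mem_of_le hA2 ha)
    rw [hA3] at h1
    have h2 := (isAlgebraic_algHom_iff (RingHom.toRatAlgHom ι) ι.injective).1 h1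
    rw [map_inv, Units.val_inv_eq_inv_val] at h2
    exact IsAlgebraic.inv_iff.1 h2
  obtain ⟨N, a, hN, hNa⟩ := hchar
  refine ⟨N, -a, hN, fun p hp => ?_⟩
  obtain ⟨A, hA1, hA2, hA3⟩ := hAex p hp
  refine ⟨A, hA2, hA1, ?_⟩
  have hpp := (hT p hp).1
  have h1 := hNa p (P p hpp) (σ p hpp) (hP p hpp).isPrime
    (not_mem_of_ne hpp (hT p hp).2 (hP p hpp).ne_top (hpP p hpp)) (hσ p hpp)
  rw [hA3, map_inv, Units.val_inv_eq_inv_val, map_inv₀, inv_pow, ← map_pow, h1, map_zpow₀,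
    map_natCast, zpow_neg]

end Pool.Agent.H320R.OH
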