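import Pool.Agent.Y115.Bar

/-!
# Products of the eigenvalues of Frobenius elements on a stable subspace, number fields

As `Pool.Agent.Y115.B.exists_A_bar`, with arithmetic Frobenius elements.
-/

set_option autoImplicit false
set_option linter.unusedSectionVars false

namespace Pool.Agent.H320R.OH

open NumberField IsDedekindDomain Pool.Agent.W569.FM Pool.Agent.W571.FM Pool.Agent.Y115.R
open Pool.Agent.Y115.T Pool.Agent.Y115.Chi Polynomial Module Pool.Agent.Y115 Pool.Agent.Y115.B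

variable {F : Type} [Field F] [NumberField F] (ℓ : ℕ) [hℓ : Fact ℓ.Prime]

/-- **Stable subspaces and products of Frobenius eigenvalues**, over the algebraic closure of
`ℚ_ℓ` -/
theorem exists_A {n : ℕ} (ρ : GF F →* GL (Fin n) (PadicAlgCl ℓ)) (hρ : Continuous ρ)
    (ι : PadicAlgCl ℓ →+* ℂ) (T : Set ℕ) (hT3 : 3 ≤ T.encard)
    (hT : ∀ p ∈ T, p.Prime ∧ p ≠ ℓ ∧ Unram F p) (S : HeightOneSpectrum (𝓞 F) → Multiset ℂ)
    (hgood : ∀ p ∈ T, ∀ v : HeightOneSpectrum (𝓞 F), (p : 𝓞 F) ∈ v.asIdeal → ∀ Q : Ideal (OO F),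
      Q.IsPrime → cm Q = v.asIdeal → (∀ g, InInertia Q g → ρ g = 1) ∧
        ∀ g, FrobAt (Ideal.absNorm v.asIdeal) Q g →
          (((ρ g : GL (Fin n) (PadicAlgCl ℓ)) :
            Matrix (Fin n) (Fin n) (PadicAlgCl ℓ)).charpoly.map ι).roots = S v)
    (halg : ∀ p ∈ T, ∀ v : HeightOneSpectrum (𝓞 F), (p : 𝓞 F) ∈ v.asIdeal →
      ∀ a ∈ S v, IsAlgebraic ℚ a)
    (W : Submodule (PadicAlgCl ℓ) (Fin n → PadicAlgCl ℓ)) (hW : ∀ g, W ≤ W.comap (act ρ g)) :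
    ∃ A : HeightOneSpectrum (𝓞 F) → Multiset ℂ,
      (∀ p ∈ T, ∀ v : HeightOneSpectrum (𝓞 F), (p : 𝓞 F) ∈ v.asIdeal →
        Multiset.card (A v) = finrank (PadicAlgCl ℓ) W ∧ A v ≤ S v) ∧
      ∀ p ∈ T, ∃ (N : ℕ) (a : ℤ), 0 < N ∧
        (∏ᶠ (v : HeightOneSpectrum (𝓞 F)) (_ : (p : 𝓞 F) ∈ v.asIdeal), (A v).prod) ^ N =
          (p : ℂ) ^ a := by
  classical
  have hfr : ∀ v : HeightOneSpectrum (𝓞 F), ∃ (Q : Ideal (OO F)) (σ : GF F), Q.IsMaximal ∧
      cm Q = v.asIdeal ∧ FrobAt (Ideal.absNorm v.asIdeal) Q σ := fun v => frob_cm v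
  choose Q₀ σ₀ hQ₀ hQ₀v hσ₀ using hfr
  set ψ : GF F →* (PadicAlgCl ℓ)ˣ := dt ρ W hW with hψ
  have hψc : Continuous ψ := continuous_dt' ρ hρ W hW
  set C : HeightOneSpectrum (𝓞 F) → (PadicAlgCl ℓ)[X] :=
    fun v => (res ρ W hW (σ₀ v)).charpoly with hC
  set A : HeightOneSpectrum (𝓞 F) → Multiset ℂ := fun v => ((C v).map ι).roots with hA
  have hcharV : ∀ p ∈ T, ∀ v : HeightOneSpectrum (𝓞 F), (p : 𝓞 F) ∈ v.asIdeal →
      (((act ρ (σ₀ v)).charpoly).map ι).roots = S v := by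
    intro p hp v hv
    have h1 := (hgood p hp v hv (Q₀ v) (hQ₀ v).isPrime (hQ₀v v)).2 (σ₀ v) (hσ₀ v)
    rw [← h1]
    unfold act
    rw [Matrix.charpoly_mulVecLin]
  have hcard : ∀ v, Multiset.card (A v) = finrank (PadicAlgCl ℓ) W := by
    intro v
    have hsplit : ((C v).map ι).Splits := IsAlgClosed.splits _
    rw [hA]
    simp only
    rw [← hsplit.natDegree_eq_card_roots, Polynomial.natDegree_map, hC]
    exact LinearMap.charpoly_natDegree _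
  have hle : ∀ p ∈ T, ∀ v : HeightOneSpectrum (𝓞 F), (p : 𝓞 F) ∈ v.asIdeal → A v ≤ S v := by
    intro p hp v hv
    rw [← hcharV p hp v hv]
    have h1 := Pool.Agent.W522.C.charpoly_eq_mul (act ρ (σ₀ v)) W (hW _)
    have h2 : (act ρ (σ₀ v)).charpoly.Monic := LinearMap.charpoly_monic _
    apply Polynomial.roots.le_of_dvd (h2.map ι).ne_zero
    exact Polynomial.map_dvd ι (Dvd.intro _ h1.symm)
  have hprod : ∀ v, (A v).prod = ι ((ψ (σ₀ v) : (PadicAlgCl ℓ)ˣ) : PadicAlgCl ℓ) := by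
    intro v
    have hsplit : ((C v).map ι).Splits := IsAlgClosed.splits _
    have hCm : (C v).Monic := LinearMap.charpoly_monic _
    have hdeg : (C v).natDegree = finrank (PadicAlgCl ℓ) W := LinearMap.charpoly_natDegree _
    have h1 : ((ψ (σ₀ v) : (PadicAlgCl ℓ)ˣ) : PadicAlgCl ℓ) =
      LinearMap.det (res ρ W hW (σ₀ v)) := rfl
    rw [h1, LinearMap.det_eq_sign_charpoly_coeff]
    have h2 : (res ρ W hW (σ₀ v)).charpoly = C v := rfl
    rw [h2, map_mul, map_pow, map_neg, map_one, ← coeff_map,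
      hsplit.coeff_zero_eq_prod_roots_of_monic (hCm.map ι), Polynomial.natDegree_map, hdeg,
      ← mul_assoc, ← pow_add, ← two_mul, pow_mul, neg_one_sq, one_pow, one_mul]
  have hd : ∀ p ∈ T, ∀ v : HeightOneSpectrum (𝓞 F), (p : 𝓞 F) ∈ v.asIdeal → ∀ Q : Ideal (OO F),
      Q.IsPrime → cm Q = v.asIdeal → (∀ g, InInertia Q g → ψ g = 1) ∧
        ∀ g, FrobAt (Ideal.absNorm v.asIdeal) Q g → ψ g = ψ (σ₀ v) := by
    intro p hp v hv Q hQ hQv
    have hin : ∀ Q : Ideal (OO F), Q.IsPrime → cm Q = v.asIdeal → ∀ g, InInertia Q g →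
        ψ g = 1 := by
      intro Q hQ hQv g hg
      exact dt_eq_one ρ W hW ((hgood p hp v hv Q hQ hQv).1 g hg)
    refine ⟨hin Q hQ hQv, fun g hg => ?_⟩
    obtain ⟨h, hh⟩ := exists_smul (Q₀ v) Q (hQ₀ v).isPrime hQ ((hQ₀v v).trans hQv.symm)
    have hq0 : Ideal.absNorm v.asIdeal ≠ 0 := by
      rw [Ne, Ideal.absNorm_eq_zero_iff]
      exact v.ne_bot
    have h1 : FrobAt (Ideal.absNorm v.asIdeal) (Q₀ v) (h⁻¹ * g * h) := by
      intro x
      have h2 := (hh _).1 (hg (h • x))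
      rw [smul_sub, smul_pow', inv_smul_smul, smul_smul, smul_smul] at h2
      exact h2
    have h2 := hin (Q₀ v) (hQ₀ v).isPrime (hQ₀v v) _ (frob_inertia hq0 (hQ₀ v).isPrime (hσ₀ v) h1)
    rw [map_mul, map_mul, map_mul, map_inv, map_inv, mul_comm (ψ h)⁻¹, mul_assoc (ψ g),
      inv_mul_cancel, mul_one, inv_mul_eq_one] at h2
    exact h2.symm
  have halg' : ∀ p ∈ T, ∀ v : HeightOneSpectrum (𝓞 F), (p : 𝓞 F) ∈ v.asIdeal →
      IsAlgebraic ℚ (ψ (σ₀ v) : PadicAlgCl ℓ) := by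
    intro p hp v hv
    have h1 : IsAlgebraic ℚ (A v).prod := by
      apply M.isAlgebraic_multiset_prod
      intro a ha
      exact halg p hp v hv a (Multiset.mem_of_le (hle p hp v hv) ha)
    rw [hprod v] at h1
    exact (isAlgebraic_algHom_iff (RingHom.toRatAlgHom ι) ι.injective).1 h1
  have key := place_relation_bar ℓ ψ hψc T hT3 hT (fun v => ψ (σ₀ v)) hd halg'
  refine ⟨A, fun p hp v hv => ⟨hcard v, hle p hp v hv⟩, fun p hp => ?_⟩
  obtain ⟨S', N, a, hN, hS', heq⟩ := key p hp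
  refine ⟨N, a, hN, ?_⟩
  have hfin : (∏ᶠ (v : HeightOneSpectrum (𝓞 F)) (_ : (p : 𝓞 F) ∈ v.asIdeal), (A v).prod) =
      ∏ v ∈ S', (A v).prod := by
    apply finprod_cond_eq_prod_of_cond_iff
    intro v _
    exact (hS' v).symm
  rw [hfin]
  have h2 := congrArg ι heq
  rw [map_pow, map_prod, map_zpow₀, map_natCast] at h2
  rw [← h2]
  congr 1
  exact Finset.prod_congr rfl fun v _ => hprod v

end Pool.Agent.H320R.OH
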