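import Pool.Agent.H320R.OH.Alg

/-!
# The translates of a set under a permutation group
-/

set_option autoImplicit false
set_option linter.unusedSectionVars false

namespace Pool.Agent.H320R.OH

open Finset

variable {G ι : Type} [Group G] [MulAction G ι] [Fintype ι] [DecidableEq ι]

/-- the characteristic function of `A` -/
def ind (A : Finset ι) : ι → ℚ := fun i => if i ∈ A then 1 else 0

/-- `W` is stable under the group `G` -/
def Inv (G : Type) [Group G] [MulAction G ι] (W : Submodule ℚ (ι → ℚ)) : Prop :=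
  ∀ g : G, ∀ x ∈ W, (fun i => x (g • i)) ∈ W

theorem top_of_single {W : Submodule ℚ (ι → ℚ)} (h : ∀ i, Pi.single i (1 : ℚ) ∈ W) : W = ⊤ := by
  rw [eq_top_iff]
  intro x _
  have h1 : x = ∑ i, x i • (Pi.single i (1 : ℚ) : ι → ℚ) := by
    funext j
    simp [Finset.sum_apply, Pi.single_apply]
  rw [h1]
  exact W.sum_mem fun i _ => W.smul_mem _ (h i)

theorem ind_eq (A : Finset ι) : ind A = ∑ k ∈ A, (Pi.single k (1 : ℚ) : ι → ℚ) := by
  funext j
  simp [ind, Finset.sum_apply, Pi.single_apply]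

/-- **The case of a transitive group of prime degree.** -/
theorem top_of_prime [MulAction.IsPretransitive G ι] (hn : (Fintype.card ι).Prime)
    {W : Submodule ℚ (ι → ℚ)} (hW : Inv G W) {A : Finset ι} (hA : A.Nonempty) (hA' : A ≠ univ)
    (hAW : ind A ∈ W) : W = ⊤ := by
  classical
  set n := Fintype.card ι with hndef
  have : Fact n.Prime := ⟨hn⟩
  obtain ⟨i₀, hi₀⟩ := hA
  let Γ : Subgroup (Equiv.Perm ι) := (MulAction.toPermHom G ι).range
  have htr : MulAction.IsPretransitive Γ ι := by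
    refine ⟨fun a b => ?_⟩
    obtain ⟨g, hg⟩ := MulAction.exists_smul_eq G a b
    exact ⟨⟨MulAction.toPermHom G ι g, ⟨g, rfl⟩⟩, hg⟩
  have hdvd : n ∣ Nat.card Γ := by
    have h1 := MulAction.index_stabilizer_of_transitive Γ i₀
    rw [Nat.card_eq_fintype_card] at h1
    rw [hndef, ← h1]
    exact Subgroup.index_dvd_card _
  obtain ⟨x, hx⟩ := exists_prime_orderOf_dvd_card' n hdvd
  set σ : Equiv.Perm ι := (x : Equiv.Perm ι) with hσ
  have hord : orderOf σ = n := by rw [← hx]; exact Subgroup.orderOf_coe x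
  have hcyc : σ.IsCycle := by
    apply Equiv.Perm.isCycle_of_prime_order'
    · rw [hord]; exact hn
    · rw [hord]
      have := hn.pos
      omega
  have hsupp : σ.support = univ := by
    rw [← Finset.card_eq_iff_eq_univ, ← hcyc.orderOf, hord]
  have hmov : ∀ i, σ i ≠ i := by
    intro i
    rw [← Equiv.Perm.mem_support, hsupp]
    exact mem_univ i
  set e : ℕ → ι := fun m => (σ ^ m) i₀ with he
  have hper : ∀ m, e (m + n) = e m := by
    intro m
    show (σ ^ (m + n)) i₀ = (σ ^ m) i₀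
    rw [pow_add, ← hord, pow_orderOf_eq_one, mul_one]
  have hmod : ∀ m, e (m % n) = e m := by
    intro m
    show (σ ^ (m % n)) i₀ = (σ ^ m) i₀
    rw [← hord, pow_mod_orderOf]
  have hsurj : Function.Surjective (fun k : Fin n => e k) := by
    intro j
    obtain ⟨m, hm⟩ := hcyc.exists_pow_eq (hmov i₀) (hmov j)
    refine ⟨⟨m % n, Nat.mod_lt _ hn.pos⟩, ?_⟩
    show e (m % n) = j
    rw [hmod]
    exact hm
  have hbij : Function.Bijective (fun k : Fin n => e k) := by
    rw [Fintype.bijective_iff_surjective_and_card]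
    exact ⟨hsurj, by rw [Fintype.card_fin]⟩
  by_contra hne
  obtain ⟨f, hf0, hf⟩ := Submodule.exists_le_ker_of_lt_top W (lt_top_iff_ne_top.2 hne)
  apply hf0
  set A' : Finset (Fin n) := univ.filter (fun k => e k ∈ A) with hA'def
  have hA'ne : A'.Nonempty := by
    obtain ⟨k, hk⟩ := hsurj i₀
    refine ⟨k, ?_⟩
    rw [hA'def, mem_filter]
    refine ⟨mem_univ _, ?_⟩
    have : e k = i₀ := hk
    rw [this]
    exact hi₀
  have hA'nu : A' ≠ univ := by
    intro h
    apply hA'
    refine eq_univ_of_forall fun j => ?_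
    obtain ⟨k, hk⟩ := hsurj j
    have h1 : k ∈ A' := by rw [h]; exact mem_univ k
    rw [hA'def, mem_filter] at h1
    rw [← hk]
    exact h1.2
  set y : ℕ → ℂ := fun m => ((f (Pi.single (e m) 1) : ℚ) : ℂ) with hy
  have hyper : ∀ m, y (m + n) = y m := by
    intro m
    rw [hy]
    simp only
    rw [hper]
  have hA'sum : ∀ s : ℕ, ∑ k ∈ A', y (s + (k : ℕ)) = 0 := by
    intro s
    have h1 : (fun i => ind A ((σ ^ s)⁻¹ i)) ∈ W := by
      obtain ⟨g, hg⟩ := ((x ^ s)⁻¹).2
      have h2 := hW g (ind A) hAW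
      have h3 : ∀ i, g • i = (σ ^ s)⁻¹ i := by
        intro i
        have h4 := congrArg (fun τ : Equiv.Perm ι => τ i) hg
        have h5 : ((((x ^ s)⁻¹ : Γ)) : Equiv.Perm ι) = (σ ^ s)⁻¹ := by
          rw [hσ]; rfl
        rw [h5] at h4
        exact h4
      have h6 : (fun i => ind A (g • i)) = fun i => ind A ((σ ^ s)⁻¹ i) := by
        funext i
        rw [h3]
      rw [← h6]
      exact h2
    have h2 : (fun i => ind A ((σ ^ s)⁻¹ i)) =
        ∑ k ∈ A', (Pi.single (e (s + (k : ℕ))) (1 : ℚ) : ι → ℚ) := by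
      have h3 : (fun i => ind A ((σ ^ s)⁻¹ i)) =
          ∑ j ∈ A, (Pi.single ((σ ^ s) j) (1 : ℚ) : ι → ℚ) := by
        rw [ind_eq]
        funext i
        rw [Finset.sum_apply, Finset.sum_apply]
        refine Finset.sum_congr rfl fun j _ => ?_
        rw [Pi.single_apply, Pi.single_apply]
        have : ((σ ^ s)⁻¹ i = j) ↔ (i = (σ ^ s) j) := by
          rw [Equiv.Perm.inv_eq_iff_eq]
        simp only [this]
      rw [h3]
      symm
      refine Finset.sum_bij (fun k _ => e k) ?_ ?_ ?_ ?_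
      · intro k hk
        rw [hA'def, mem_filter] at hk
        exact hk.2
      · intro k _ k' _ hkk
        exact hbij.1 hkk
      · intro j hj
        obtain ⟨k, hk⟩ := hsurj j
        refine ⟨k, ?_, hk⟩
        rw [hA'def, mem_filter]
        refine ⟨mem_univ _, ?_⟩
        have h7 : e k = j := hk
        rw [h7]
        exact hj
      · intro k _
        have h8 : e (s + (k : ℕ)) = (σ ^ s) (e k) := by
          show (σ ^ (s + (k : ℕ))) i₀ = (σ ^ s) ((σ ^ (k : ℕ)) i₀)
          rw [pow_add]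
          rfl
        rw [h8]
    have h3 : f (fun i => ind A ((σ ^ s)⁻¹ i)) = 0 := hf h1
    rw [h2, map_sum] at h3
    have h4 := congrArg (fun q : ℚ => (q : ℂ)) h3
    simp only [Rat.cast_sum, Rat.cast_zero] at h4
    exact h4
  have hzero := eq_zero_of_conv hn A' hA'ne hA'nu y hyper hA'sum
  apply LinearMap.ext
  intro v
  have h1 : v = ∑ i, v i • (Pi.single i (1 : ℚ) : ι → ℚ) := by
    funext j
    simp [Finset.sum_apply, Pi.single_apply]
  rw [h1, map_sum]
  simp only [map_smul]
  rw [LinearMap.zero_apply]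
  refine Finset.sum_eq_zero fun j _ => ?_
  obtain ⟨k, hk⟩ := hsurj j
  have h2 := hzero k k.2
  have h3 : e k = j := hk
  rw [hy] at h2
  simp only at h2
  rw [h3] at h2
  have h4 : f (Pi.single j 1) = 0 := by exact_mod_cast h2
  rw [h4, smul_zero]

/-- **The case of a doubly transitive group.** -/
theorem top_of_two (h2 : ∀ a b c d : ι, a ≠ b → c ≠ d → ∃ g : G, g • a = c ∧ g • b = d)
    {W : Submodule ℚ (ι → ℚ)} (hW : Inv G W) {A : Finset ι} (hA : A.Nonempty) (hA' : A ≠ univ)
    (hAW : ind A ∈ W) : W = ⊤ := by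
  classical
  obtain ⟨i, hi⟩ := hA
  obtain ⟨j, hj⟩ : ∃ j, j ∉ A := by
    by_contra hcon
    push Not at hcon
    exact hA' (eq_univ_of_forall hcon)
  have hij : i ≠ j := by
    rintro rfl
    exact hj hi
  -- the stabilizer of `i`
  set K : Finset (Equiv.Perm ι) :=
    univ.filter (fun σ : Equiv.Perm ι => (∃ g : G, ∀ k, σ k = g • k) ∧ σ i = i) with hK
  have hK1 : (1 : Equiv.Perm ι) ∈ K := by
    rw [hK, mem_filter]
    exact ⟨mem_univ _, ⟨1, fun k => (one_smul G k).symm⟩, rfl⟩
  set v : ι → ℚ := ∑ σ ∈ K, fun k => ind A (σ k) with hv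
  have hvW : v ∈ W := by
    rw [hv]
    refine W.sum_mem fun σ hσ => ?_
    rw [hK, mem_filter] at hσ
    obtain ⟨-, ⟨g, hg⟩, -⟩ := hσ
    have h3 : (fun k => ind A (σ k)) = fun k => ind A (g • k) := by
      funext k
      rw [hg]
    rw [h3]
    exact hW g _ hAW
  have hvi : v i = K.card := by
    rw [hv, Finset.sum_apply]
    rw [Finset.sum_congr rfl (g := fun _ => (1 : ℚ))]
    · simp
    · intro σ hσ
      rw [hK, mem_filter] at hσ
      rw [hσ.2.2]
      simp [ind, hi]
  have hvk : ∀ k, k ≠ i → v k = v j := by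
    intro k hk
    obtain ⟨g, hg1, hg2⟩ := h2 i k i j (Ne.symm hk) hij
    rw [hv, Finset.sum_apply, Finset.sum_apply]
    -- substitution `σ ↦ σ * g⁻¹`
    refine Finset.sum_bij (fun σ _ => σ * (MulAction.toPerm g : Equiv.Perm ι)⁻¹) ?_ ?_ ?_ ?_
    · intro σ hσ
      rw [hK, mem_filter] at hσ ⊢
      obtain ⟨-, ⟨g', hg'⟩, hσi⟩ := hσ
      refine ⟨mem_univ _, ⟨g' * g⁻¹, fun m => ?_⟩, ?_⟩
      · rw [Equiv.Perm.mul_apply, hg', mul_smul]
        rfl
      · rw [Equiv.Perm.mul_apply]
        have : (MulAction.toPerm g : Equiv.Perm ι)⁻¹ i = i := by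
          rw [Equiv.Perm.inv_eq_iff_eq]
          exact hg1.symm
        rw [this, hσi]
    · intro σ _ σ' _ h
      exact mul_right_cancel h
    · intro σ hσ
      rw [hK, mem_filter] at hσ
      obtain ⟨-, ⟨g', hg'⟩, hσi⟩ := hσ
      refine ⟨σ * MulAction.toPerm g, ?_, ?_⟩
      · rw [hK, mem_filter]
        refine ⟨mem_univ _, ⟨g' * g, fun m => ?_⟩, ?_⟩
        · rw [Equiv.Perm.mul_apply, hg', mul_smul]
          rfl
        · rw [Equiv.Perm.mul_apply]
          have : (MulAction.toPerm g : Equiv.Perm ι) i = i := hg1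
          rw [this, hσi]
      · rw [mul_assoc, mul_inv_cancel, mul_one]
    · intro σ _
      rw [Equiv.Perm.mul_apply]
      have : (MulAction.toPerm g : Equiv.Perm ι)⁻¹ j = k := by
        rw [Equiv.Perm.inv_eq_iff_eq]
        exact hg2.symm
      rw [this]
  set N : ℚ := (K.card : ℚ) with hN
  have hNpos : 0 < N := by
    rw [hN]
    exact_mod_cast Finset.card_pos.2 ⟨1, hK1⟩
  set c : ℚ := v j with hc
  -- the sum of the values
  have hsum : ∑ k, v k = N * A.card := by
    rw [hv]
    simp only [Finset.sum_apply]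
    rw [Finset.sum_comm]
    have h3 : ∀ σ ∈ K, ∑ k, ind A (σ k) = (A.card : ℚ) := by
      intro σ _
      rw [Equiv.sum_comp σ (fun k => ind A k)]
      simp [ind]
    rw [Finset.sum_congr rfl h3, Finset.sum_const, nsmul_eq_mul]
  have hNc : N - c ≠ 0 := by
    intro h0
    have h3 : ∀ k, v k = N := by
      intro k
      by_cases hk : k = i
      · rw [hk, hvi]
      · rw [hvk k hk, sub_eq_zero.1 h0]
    simp only [h3] at hsum
    rw [Finset.sum_const, nsmul_eq_mul, mul_comm] at hsum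
    have h4 := mul_left_cancel₀ hNpos.ne' hsum
    have h5 : Finset.card (univ : Finset ι) = A.card := by exact_mod_cast h4
    exact hA' ((Finset.card_eq_iff_eq_univ A).1 (by rw [← h5, Finset.card_univ]))
  -- the differences
  have hu : ∀ i', (fun _ => c) + (N - c) • (Pi.single i' (1 : ℚ) : ι → ℚ) ∈ W := by
    intro i'
    obtain ⟨g, hg⟩ : ∃ g : G, g • i' = i := by
      by_cases h : i' = i
      · exact ⟨1, by rw [one_smul, h]⟩
      · obtain ⟨g, hg, -⟩ := h2 i' i i i' h (Ne.symm h)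
        exact ⟨g, hg⟩
    have h3 := hW g v hvW
    have h4 : (fun k => v (g • k)) = (fun _ => c) + (N - c) • (Pi.single i' (1 : ℚ) : ι → ℚ) := by
      funext k
      rw [Pi.add_apply, Pi.smul_apply, Pi.single_apply, smul_eq_mul]
      by_cases hk : k = i'
      · rw [hk, hg, hvi, if_pos rfl]
        ring
      · have h5 : g • k ≠ i := by
          intro h6
          rw [← hg] at h6
          exact hk (MulAction.injective g h6)
        rw [hvk _ h5, if_neg hk]
        ring
    rw [← h4]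
    exact h3
  have hdiff : ∀ k l, (Pi.single k (1 : ℚ) : ι → ℚ) - Pi.single l (1 : ℚ) ∈ W := by
    intro k l
    have h3 := W.sub_mem (hu k) (hu l)
    have h4 : ((fun _ => c) + (N - c) • (Pi.single k (1 : ℚ) : ι → ℚ)) -
        ((fun _ => c) + (N - c) • (Pi.single l (1 : ℚ) : ι → ℚ)) =
        (N - c) • ((Pi.single k (1 : ℚ) : ι → ℚ) - Pi.single l (1 : ℚ)) := by
      rw [smul_sub]
      abel
    rw [h4] at h3
    exact (W.smul_mem_iff hNc).1 h3
  apply top_of_single
  intro l
  have h3 : ind A - ∑ k ∈ A, ((Pi.single k (1 : ℚ) : ι → ℚ) - Pi.single l (1 : ℚ)) =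
      (A.card : ℚ) • (Pi.single l (1 : ℚ) : ι → ℚ) := by
    rw [ind_eq, ← Finset.sum_sub_distrib]
    simp only [sub_sub_cancel]
    rw [Finset.sum_const, ← Nat.cast_smul_eq_nsmul ℚ]
  have h4 := W.sub_mem hAW (W.sum_mem fun k (_ : k ∈ A) => hdiff k l)
  rw [h3] at h4
  refine (W.smul_mem_iff ?_).1 h4
  have : 0 < A.card := Finset.card_pos.2 ⟨i, hi⟩
  exact_mod_cast this.ne'

end Pool.Agent.H320R.OH
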