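import Pool.Agent.H320R.OH.Rel

/-!
# Products of roots of a polynomial which are powers of `p` up to roots of unity
-/

set_option autoImplicit false
set_option linter.unusedSectionVars false

namespace Pool.Agent.H320R.OH

open Finset Polynomial

theorem IsPower.ne_zero {p : ℕ} (hp : (p : ℂ) ≠ 0) {x : ℂ} (h : IsPower p x) : x ≠ 0 := by
  obtain ⟨N, a, hN, h⟩ := h
  rintro rfl
  rw [zero_pow hN.ne'] at h
  exact zpow_ne_zero a hp h.symm

theorem IsPower.div {p : ℕ} (hp : (p : ℂ) ≠ 0) {x y : ℂ} (hx : IsPower p x) (hy : IsPower p y) :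
    IsPower p (x / y) := by
  obtain ⟨N, a, hN, h⟩ := hx
  obtain ⟨N', a', hN', h'⟩ := hy
  refine ⟨N * N', N' * a - N * a', Nat.mul_pos hN hN', ?_⟩
  rw [div_pow, pow_mul, h, mul_comm N N', pow_mul, h', zpow_sub₀ hp, mul_comm (N' : ℤ),
    mul_comm (N : ℤ), zpow_mul, zpow_mul, zpow_natCast, zpow_natCast]

/-- **Powers of `p` among the products of roots.** -/
theorem isPower_roots {E : Type} [Field E] [Algebra E ℂ] (H : E[X]) {p : ℕ} (hp : (p : ℂ) ≠ 0)
    (hsep : H.Separable) (h0 : (0 : ℂ) ∉ (H.map (algebraMap E ℂ)).roots)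
    (hG : (Irreducible H ∧ H.natDegree.Prime) ∨
      ∀ a b c d : H.rootSet ℂ, a ≠ b → c ≠ d → ∃ g : H.Gal, g • a = c ∧ g • b = d)
    {A : Multiset ℂ} (hA : A ≤ (H.map (algebraMap E ℂ)).roots) (hA0 : 0 < Multiset.card A)
    (hAn : Multiset.card A < H.natDegree) (hAp : IsPower p A.prod) :
    ∀ z ∈ (H.map (algebraMap E ℂ)).roots, IsPower p z := by
  classical
  have hH0 : H ≠ 0 := hsep.ne_zero
  have hroots : ∀ x : ℂ, x ∈ (H.map (algebraMap E ℂ)).roots ↔ x ∈ H.rootSet ℂ := by
    intro x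
    rw [mem_rootSet, mem_roots (map_ne_zero hH0), IsRoot.def, eval_map_algebraMap]
    exact ⟨fun h => ⟨hH0, h⟩, fun h => h.2⟩
  have hnod : (H.map (algebraMap E ℂ)).roots.Nodup := nodup_roots hsep.map
  have hAnod : A.Nodup := Multiset.nodup_of_le hA hnod
  have hz : ∀ i : H.rootSet ℂ, (i : ℂ) ≠ 0 := by
    intro i h
    exact h0 (by rw [← h]; exact (hroots _).2 i.2)
  have hcard : Fintype.card (H.rootSet ℂ) = H.natDegree :=
    card_rootSet_eq_natDegree hsep (splits_C H)
  set A' : Finset (H.rootSet ℂ) := univ.filter (fun i => (i : ℂ) ∈ A) with hA'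
  have hmap : A'.val.map (fun i : H.rootSet ℂ => (i : ℂ)) = A := by
    have h1 : (A'.val.map (fun i : H.rootSet ℂ => (i : ℂ))).Nodup :=
      Multiset.Nodup.map Subtype.val_injective A'.nodup
    rw [h1.ext hAnod]
    intro x
    rw [Multiset.mem_map]
    constructor
    · rintro ⟨i, hi, rfl⟩
      rw [Finset.mem_val, hA', mem_filter] at hi
      exact hi.2
    · intro hx
      have h2 : x ∈ H.rootSet ℂ := (hroots x).1 (Multiset.mem_of_le hA hx)
      refine ⟨⟨x, h2⟩, ?_, rfl⟩
      rw [Finset.mem_val, hA', mem_filter]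
      exact ⟨mem_univ _, hx⟩
  have hcA : A'.card = Multiset.card A := by
    rw [← hmap, Multiset.card_map]
    rfl
  have hprod : ∏ i ∈ A', (i : ℂ) = A.prod := by
    rw [← hmap]
    rfl
  have hne : A'.Nonempty := by
    rw [← Finset.card_pos, hcA]
    exact hA0
  have hnu : A' ≠ univ := by
    intro h
    rw [h, Finset.card_univ, hcard] at hcA
    omega
  have hinv : Inv H.Gal (relSub p (fun i : H.rootSet ℂ => (i : ℂ)) hp hz) :=
    inv_relSub fun g c a h => gal_rel H g c a h
  have hmem : ind A' ∈ relSub p (fun i : H.rootSet ℂ => (i : ℂ)) hp hz :=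
    ind_mem (by rw [hprod]; exact hAp)
  have htop : relSub p (fun i : H.rootSet ℂ => (i : ℂ)) hp hz = ⊤ := by
    rcases hG with ⟨hirr, hprime⟩ | h2
    · have : MulAction.IsPretransitive H.Gal (H.rootSet ℂ) :=
        Polynomial.Gal.galAction_isPretransitive H ℂ hirr
      exact top_of_prime (G := H.Gal) (by rw [hcard]; exact hprime) hinv hne hnu hmem
    · exact top_of_two (G := H.Gal) h2 hinv hne hnu hmem
  intro z hz'
  exact isPower_of_top htop ⟨z, (hroots z).1 hz'⟩

end Pool.Agent.H320R.OH
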