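import Pool.Agent.H320R.OH.Perm

/-!
# Multiplicative relations between the roots of a polynomial
-/

set_option autoImplicit false
set_option linter.unusedSectionVars false

namespace Pool.Agent.H320R.OH

open Finset Polynomial

/-- `x` is the product of a root of unity and a rational power of `p`. -/
def IsPower (p : ℕ) (x : ℂ) : Prop := ∃ (N : ℕ) (a : ℤ), 0 < N ∧ x ^ N = (p : ℂ) ^ a

section rel

variable {ι : Type} [Fintype ι] [DecidableEq ι] (p : ℕ) (z : ι → ℂ)

/-- the rational vectors which are proportional to relations -/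
def relSub (hp : (p : ℂ) ≠ 0) (hz : ∀ i, z i ≠ 0) : Submodule ℚ (ι → ℚ) where
  carrier := {x | ∃ (N : ℕ) (c : ι → ℤ) (a : ℤ), 0 < N ∧ (∀ i, (c i : ℚ) = N * x i) ∧
    ∏ i, z i ^ c i = (p : ℂ) ^ a}
  zero_mem' := ⟨1, fun _ => 0, 0, one_pos, fun i => by simp, by simp⟩
  add_mem' := by
    rintro x y ⟨N, c, a, hN, hc, h⟩ ⟨N', c', a', hN', hc', h'⟩
    refine ⟨N * N', fun i => N' * c i + N * c' i, N' * a + N * a', Nat.mul_pos hN hN', ?_, ?_⟩
    · intro i
      push_cast
      rw [hc, hc', Pi.add_apply]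
      ring
    · have h1 : ∀ i, z i ^ ((N' : ℤ) * c i + (N : ℤ) * c' i) =
          (z i ^ c i) ^ N' * (z i ^ c' i) ^ N := by
        intro i
        rw [zpow_add₀ (hz i), mul_comm (N' : ℤ), mul_comm (N : ℤ), zpow_mul, zpow_mul,
          zpow_natCast, zpow_natCast]
      rw [Finset.prod_congr rfl fun i _ => h1 i, Finset.prod_mul_distrib, Finset.prod_pow,
        Finset.prod_pow, h, h', zpow_add₀ hp, mul_comm (N' : ℤ), mul_comm (N : ℤ), zpow_mul,
        zpow_mul, zpow_natCast, zpow_natCast]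
  smul_mem' := by
    rintro q x ⟨N, c, a, hN, hc, h⟩
    refine ⟨N * q.den, fun i => q.num * c i, q.num * a, Nat.mul_pos hN q.den_pos, ?_, ?_⟩
    · intro i
      have hd : (q.den : ℚ) ≠ 0 := by exact_mod_cast q.den_pos.ne'
      have hq : (q.num : ℚ) = q * q.den := (Rat.mul_den_eq_num q).symm
      push_cast
      rw [hc, hq, Pi.smul_apply, smul_eq_mul]
      ring
    · have h1 : ∀ i, z i ^ (q.num * c i) = (z i ^ c i) ^ q.num := by
        intro i
        rw [mul_comm, zpow_mul]
      rw [Finset.prod_congr rfl fun i _ => h1 i, Finset.prod_zpow, h, mul_comm q.num, zpow_mul]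

variable {p z}

theorem isPower_of_top {hp : (p : ℂ) ≠ 0} {hz : ∀ i, z i ≠ 0} (h : relSub p z hp hz = ⊤) (i : ι) :
    IsPower p (z i) := by
  have h1 : (Pi.single i (1 : ℚ) : ι → ℚ) ∈ relSub p z hp hz := by rw [h]; trivial
  obtain ⟨N, c, a, hN, hc, h2⟩ := h1
  refine ⟨N, a, hN, ?_⟩
  rw [← h2]
  have h3 : ∀ j, z j ^ c j = if j = i then z i ^ N else 1 := by
    intro j
    by_cases hj : j = i
    · subst hj
      rw [if_pos rfl]
      have h4 := hc j
      rw [Pi.single_eq_same, mul_one] at h4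
      have h5 : c j = (N : ℤ) := by exact_mod_cast h4
      rw [h5, zpow_natCast]
    · rw [if_neg hj]
      have h4 := hc j
      rw [Pi.single_eq_of_ne hj, mul_zero] at h4
      have h5 : c j = 0 := by exact_mod_cast h4
      rw [h5, zpow_zero]
  rw [Finset.prod_congr rfl fun j _ => h3 j, Finset.prod_ite_eq' univ i, if_pos (mem_univ i)]

theorem ind_mem {hp : (p : ℂ) ≠ 0} {hz : ∀ i, z i ≠ 0} {A : Finset ι}
    (h : IsPower p (∏ i ∈ A, z i)) : ind A ∈ relSub p z hp hz := by
  obtain ⟨N, a, hN, h⟩ := h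
  refine ⟨N, fun i => if i ∈ A then (N : ℤ) else 0, a, hN, ?_, ?_⟩
  · intro i
    unfold ind
    by_cases hi : i ∈ A <;> simp [hi]
  · rw [← h, ← Finset.prod_pow]
    have h1 : ∀ i, z i ^ (if i ∈ A then (N : ℤ) else 0) = if i ∈ A then z i ^ N else 1 := by
      intro i
      by_cases hi : i ∈ A
      · rw [if_pos hi, if_pos hi, zpow_natCast]
      · rw [if_neg hi, if_neg hi, zpow_zero]
    rw [Finset.prod_congr rfl fun i _ => h1 i, Finset.prod_ite_mem, Finset.univ_inter]

/-- The group acts on the relations. -/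
theorem inv_relSub {G : Type} [Group G] [MulAction G ι] {hp : (p : ℂ) ≠ 0} {hz : ∀ i, z i ≠ 0}
    (h : ∀ (g : G) (c : ι → ℤ) (a : ℤ), ∏ i, z i ^ c i = (p : ℂ) ^ a →
      ∏ i, z i ^ c (g • i) = (p : ℂ) ^ a) : Inv G (relSub p z hp hz) := by
  rintro g x ⟨N, c, a, hN, hc, h1⟩
  exact ⟨N, fun i => c (g • i), a, hN, fun i => hc _, h g c a h1⟩

end rel

section poly

variable {E : Type} [Field E] [Algebra E ℂ] (H : E[X])

theorem splits_C : (H.map (algebraMap E ℂ)).Splits := IsAlgClosed.splits _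

instance : Fact ((H.map (algebraMap E ℂ)).Splits) := ⟨splits_C H⟩

/-- The Galois group preserves the relations between the roots. -/
theorem gal_rel {p : ℕ} (g : H.Gal) (c : H.rootSet ℂ → ℤ) (a : ℤ)
    (h : ∏ i : H.rootSet ℂ, (i : ℂ) ^ c i = (p : ℂ) ^ a) :
    ∏ i : H.rootSet ℂ, (i : ℂ) ^ c (g • i) = (p : ℂ) ^ a := by
  classical
  set φ : H.SplittingField →ₐ[E] ℂ := IsScalarTower.toAlgHom E H.SplittingField ℂ with hφ
  set e := Polynomial.Gal.rootsEquivRoots H ℂ with he
  have hval : ∀ y : H.rootSet H.SplittingField, ((e y : H.rootSet ℂ) : ℂ) = φ y := fun y => rfl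
  have hsm : ∀ y : H.rootSet H.SplittingField, g • e y = e (g • y) := by
    intro y
    rw [Polynomial.Gal.smul_def, he, Equiv.symm_apply_apply]
  have hgy : ∀ y : H.rootSet H.SplittingField, ((g • y : H.rootSet H.SplittingField) :
      H.SplittingField) = g (y : H.SplittingField) := fun y => rfl
  -- the relation in the splitting field
  have h1 : ∏ y : H.rootSet H.SplittingField, (y : H.SplittingField) ^ c (e y) =
      (p : H.SplittingField) ^ a := by
    apply φ.injective
    rw [map_prod, map_zpow₀, map_natCast, ← h]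
    rw [← Equiv.prod_comp e]
    refine Finset.prod_congr rfl fun y _ => ?_
    rw [map_zpow₀, hval]
    rfl
  have h2 := congrArg (fun x => g.symm x) h1
  simp only [map_prod, map_zpow₀, map_natCast] at h2
  have h3 := congrArg φ h2
  rw [map_prod, map_zpow₀, map_natCast] at h3
  rw [← h3, ← Equiv.prod_comp e]
  rw [← Equiv.prod_comp (MulAction.toPerm g : Equiv.Perm (H.rootSet H.SplittingField))
    (fun y => φ ((g.symm (y : H.SplittingField)) ^ c (e y)))]
  refine Finset.prod_congr rfl fun y _ => ?_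
  rw [hval, hsm, map_zpow₀]
  congr 2
  show (y : H.SplittingField) = g.symm ((g • y : H.rootSet H.SplittingField) : H.SplittingField)
  rw [hgy]
  exact (AlgEquiv.symm_apply_apply g _).symm

end poly

end Pool.Agent.H320R.OH
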