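import Pool.Agent.H320R.OH.Sym

/-!
# Transitive groups of degree `2 m` with an invariant involution, `m` an odd prime
-/

set_option autoImplicit false
set_option linter.unusedSectionVars false

namespace Pool.Agent.H320R.OH

open Finset

variable {G ι : Type} [Group G] [MulAction G ι] [Fintype ι] [DecidableEq ι]

theorem sym_core [MulAction.IsPretransitive G ι] {n : ℕ} (hn : n.Prime) (hodd : Odd n)
    (hcard : Fintype.card ι = 2 * n) (st : ι → ι) (hst : ∀ i, st (st i) = i)
    (hne : ∀ i, st i ≠ i) (hG : ∀ (g : G) (i : ι), st (g • i) = g • st i)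
    {W : Submodule ℚ (ι → ℚ)} (hW : Inv G W)
    (hpair : ∀ i, (Pi.single i (1 : ℚ) : ι → ℚ) + Pi.single (st i) (1 : ℚ) ∈ W)
    {A : Finset ι} (hA : A.Nonempty) (hiso : ∀ i ∈ A, st i ∉ A) (hAn : A.card < n)
    (hAW : ind A ∈ W) :
    ∃ i j, i ≠ j ∧ (Pi.single i (1 : ℚ) : ι → ℚ) - Pi.single j (1 : ℚ) ∈ W := by
  classical
  have : Fact n.Prime := ⟨hn⟩
  obtain ⟨i₀, hi₀⟩ := hA
  let Γ : Subgroup (Equiv.Perm ι) := (MulAction.toPermHom G ι).range
  have htr : MulAction.IsPretransitive Γ ι := by
    refine ⟨fun a b => ?_⟩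
    obtain ⟨g, hg⟩ := MulAction.exists_smul_eq G a b
    exact ⟨⟨MulAction.toPermHom G ι g, ⟨g, rfl⟩⟩, hg⟩
  have hdvd : n ∣ Nat.card Γ := by
    have h1 := MulAction.index_stabilizer_of_transitive Γ i₀
    rw [Nat.card_eq_fintype_card, hcard] at h1
    have h2 : (MulAction.stabilizer Γ i₀).index ∣ Nat.card Γ := Subgroup.index_dvd_card _
    rw [h1] at h2
    exact (Dvd.intro_left 2 rfl).trans h2
  obtain ⟨x, hx⟩ := exists_prime_orderOf_dvd_card' n hdvd
  set σ : Equiv.Perm ι := (x : Equiv.Perm ι) with hσ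
  have hord : orderOf σ = n := by rw [← hx]; exact Subgroup.orderOf_coe x
  have hσst : ∀ k : ℕ, ∀ i, st ((σ ^ k) i) = (σ ^ k) (st i) := by
    have h1 : ∀ i, st (σ i) = σ (st i) := by
      obtain ⟨g, hg⟩ := x.2
      intro i
      have h2 : ∀ j, σ j = g • j := fun j => (congrArg (fun τ : Equiv.Perm ι => τ j) hg).symm
      rw [h2, h2]
      exact hG g i
    intro k
    induction k with
    | zero => intro i; rfl
    | succ k ih =>
      intro i
      rw [pow_succ', Equiv.Perm.mul_apply, h1, ih, Equiv.Perm.mul_apply]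
  -- a point which is moved
  obtain ⟨r, hr⟩ : ∃ r, σ r ≠ r := by
    by_contra hcon
    push Not at hcon
    have h1 : σ = 1 := Equiv.ext hcon
    rw [h1, orderOf_one] at hord
    exact hn.one_lt.ne hord
  have hperiod : Function.minimalPeriod σ r = n := by
    have h1 : Function.minimalPeriod σ r ∣ n := by
      apply Function.IsPeriodicPt.minimalPeriod_dvd
      show σ^[n] r = r
      rw [Equiv.Perm.iterate_eq_pow, ← hord, pow_orderOf_eq_one]
      rfl
    rcases (Nat.dvd_prime hn).1 h1 with h2 | h2
    · exfalso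
      rw [Function.minimalPeriod_eq_one_iff_isFixedPt] at h2
      exact hr h2
    · exact h2
  have hfix : ∀ k : ℕ, (σ ^ k) r = r → n ∣ k := by
    intro k hk
    rw [← hperiod]
    apply Function.IsPeriodicPt.minimalPeriod_dvd
    show σ^[k] r = r
    rw [Equiv.Perm.iterate_eq_pow]
    exact hk
  have hpown : σ ^ n = 1 := by rw [← hord]; exact pow_orderOf_eq_one σ
  set e : ℕ → ι := fun m => (σ ^ m) r with he
  have hper : ∀ m, e (m + n) = e m := by
    intro m
    show (σ ^ (m + n)) r = (σ ^ m) r
    rw [pow_add, hpown, mul_one]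
  have heinj : ∀ k < n, ∀ k' < n, e k = e k' → k = k' := by
    have key : ∀ k < n, ∀ k' < n, k ≤ k' → e k = e k' → k = k' := by
      intro k hk k' hk' hle h
      have h1 : (σ ^ (k' - k)) r = r := by
        apply (σ ^ k).injective
        rw [← Equiv.Perm.mul_apply, ← pow_add, Nat.add_sub_cancel' hle]
        exact h.symm
      have h2 := hfix _ h1
      have h3 : k' - k = 0 := Nat.eq_zero_of_dvd_of_lt h2 (by omega)
      omega
    intro k hk k' hk' h
    rcases le_total k k' with hle | hle
    · exact key k hk k' hk' hle h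
    · exact (key k' hk' k hk hle h.symm).symm
  have hdisj : ∀ k < n, ∀ k' < n, e k ≠ st (e k') := by
    intro k _ k' hk' h
    have h1 : st r = (σ ^ (k + (n - k'))) r := by
      apply (σ ^ k').injective
      rw [← hσst, ← Equiv.Perm.mul_apply, ← pow_add,
        show k' + (k + (n - k')) = k + n by omega]
      exact (h.symm.trans (hper k).symm)
    set j := k + (n - k') with hj
    have h2 : (σ ^ (j + j)) r = r := by
      rw [pow_add, Equiv.Perm.mul_apply, ← h1, ← hσst, ← h1, hst]
    have h3 : n ∣ 2 * j := by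
      rw [two_mul]
      exact hfix _ h2
    have h4 : n ∣ j := by
      have h5 : Nat.Coprime n 2 := (Nat.coprime_two_right).2 hodd
      exact h5.dvd_of_dvd_mul_left h3
    obtain ⟨c, hc⟩ := h4
    rw [hc, pow_mul, hpown, one_pow] at h1
    exact hne r h1
  set E : Fin n ⊕ Fin n → ι := Sum.elim (fun k => e k) (fun k => st (e k)) with hE
  have hstinj : Function.Injective st := fun a b h => by rw [← hst a, h, hst]
  have hEinj : Function.Injective E := by
    rintro (k | k) (k' | k') h
    · exact congrArg Sum.inl (Fin.ext (heinj k k.2 k' k'.2 h))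
    · exact absurd h (hdisj k k.2 k' k'.2)
    · exact absurd h.symm (hdisj k' k'.2 k k.2)
    · exact congrArg Sum.inr (Fin.ext (heinj k k.2 k' k'.2 (hstinj h)))
  have hEbij : Function.Bijective E := by
    rw [Fintype.bijective_iff_injective_and_card]
    refine ⟨hEinj, ?_⟩
    rw [Fintype.card_sum, Fintype.card_fin, hcard]
    ring
  refine ⟨e 0, e 1, fun h => ?_, ?_⟩
  · have := heinj 0 hn.pos 1 hn.one_lt h
    omega
  by_contra hnot
  obtain ⟨f, hfv, hf⟩ := Submodule.exists_le_ker_of_notMem hnot
  apply hfv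
  have hFst : ∀ i, f (Pi.single (st i) 1) = - f (Pi.single i 1) := by
    intro i
    have h1 : f ((Pi.single i (1 : ℚ) : ι → ℚ) + Pi.single (st i) (1 : ℚ)) = 0 := hf (hpair i)
    rw [map_add] at h1
    linarith
  set y : Fin n → ℚ := fun k => ind A (e k) - ind A (st (e k)) with hy
  -- `y` is not constant
  obtain ⟨u, v, huv⟩ : ∃ u v, y u ≠ y v := by
    by_contra hcon
    push Not at hcon
    have hval : ∀ k, y k ≠ 0 := by
      intro k hk
      obtain ⟨s, hs⟩ := hEbij.2 i₀
      have h0 : ∀ k', y k' = 0 := fun k' => by rw [hcon k' k, hk]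
      rcases s with s | s
      · have h1 : e s = i₀ := hs
        have h2 := h0 s
        rw [hy] at h2
        simp only [h1] at h2
        unfold ind at h2
        rw [if_pos hi₀, if_neg (hiso i₀ hi₀)] at h2
        norm_num at h2
      · have h1 : st (e s) = i₀ := hs
        have h1' : e s = st i₀ := by rw [← h1, hst]
        have h2 := h0 s
        rw [hy] at h2
        simp only [h1', hst] at h2
        unfold ind at h2
        rw [if_pos hi₀, if_neg (hiso i₀ hi₀)] at h2
        norm_num at h2
    -- every pair has a member in `A`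
    have hex : ∀ k : Fin n, ∃ i ∈ A, i = e k ∨ i = st (e k) := by
      intro k
      by_contra hno
      push Not at hno
      apply hval k
      have h1 : e k ∉ A := fun h => (hno _ h).1 rfl
      have h2 : st (e k) ∉ A := fun h => (hno _ h).2 rfl
      rw [hy]
      simp only [ind, if_neg h1, if_neg h2, sub_zero]
    choose φ hφA hφ using hex
    have hφinj : Function.Injective φ := by
      intro k k' h
      rcases hφ k with h1 | h1 <;> rcases hφ k' with h2 | h2
      · rw [h1, h2] at h
        exact Fin.ext (heinj k k.2 k' k'.2 h)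
      · rw [h1, h2] at h
        exact absurd h (hdisj k k.2 k' k'.2)
      · rw [h1, h2] at h
        exact absurd h.symm (hdisj k' k'.2 k k.2)
      · rw [h1, h2] at h
        exact Fin.ext (heinj k k.2 k' k'.2 (hstinj h))
    have h3 : n ≤ A.card := by
      have h4 := Finset.card_le_card_of_injOn (s := (univ : Finset (Fin n))) (t := A) φ
        (fun k _ => hφA k) (fun k _ k' _ h => hφinj h)
      rwa [Finset.card_univ, Fintype.card_fin] at h4
    omega
  -- the functional on the translates
  set Y : ℕ → ℂ := fun m => ((f (Pi.single (e m) 1) : ℚ) : ℂ) with hY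
  have hsum : ∀ s : ℕ, ∑ k : Fin n, (y k : ℂ) * Y (s + (k : ℕ)) = 0 := by
    intro s
    have h1 : (fun i => ind A ((σ ^ s)⁻¹ i)) ∈ W := by
      obtain ⟨g, hg⟩ := ((x ^ s)⁻¹).2
      have h2 := hW g (ind A) hAW
      have h3 : ∀ i, g • i = (σ ^ s)⁻¹ i := by
        intro i
        have h4 := congrArg (fun τ : Equiv.Perm ι => τ i) hg
        have h5 : ((((x ^ s)⁻¹ : Γ)) : Equiv.Perm ι) = (σ ^ s)⁻¹ := by
          rw [hσ]; rfl
        rw [h5] at h4
        exact h4
      have h6 : (fun i => ind A (g • i)) = fun i => ind A ((σ ^ s)⁻¹ i) := by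
        funext i
        rw [h3]
      rw [← h6]
      exact h2
    have h2 : (fun i => ind A ((σ ^ s)⁻¹ i)) =
        ∑ j, ind A j • (Pi.single ((σ ^ s) j) (1 : ℚ) : ι → ℚ) := by
      funext i
      rw [Finset.sum_apply, Finset.sum_eq_single ((σ ^ s)⁻¹ i)]
      · simp
      · intro j _ hj
        rw [Pi.smul_apply, Pi.single_apply, if_neg, smul_zero]
        intro h
        apply hj
        rw [h]
        exact ((σ ^ s).symm_apply_apply j).symm
      · intro h
        exact absurd (mem_univ _) h
    have h3 : f (fun i => ind A ((σ ^ s)⁻¹ i)) = 0 := hf h1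
    rw [h2, map_sum] at h3
    simp only [map_smul, smul_eq_mul] at h3
    rw [← Function.Bijective.sum_comp hEbij
      (fun j => ind A j * f (Pi.single ((σ ^ s) j) 1)), Fintype.sum_sum_type,
      ← Finset.sum_add_distrib] at h3
    have h4 : ∀ k : Fin n, ind A (E (Sum.inl k)) * f (Pi.single ((σ ^ s) (E (Sum.inl k))) 1) +
        ind A (E (Sum.inr k)) * f (Pi.single ((σ ^ s) (E (Sum.inr k))) 1) =
        y k * f (Pi.single (e (s + (k : ℕ))) 1) := by
      intro k
      have h5 : (σ ^ s) (e k) = e (s + (k : ℕ)) := by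
        show (σ ^ s) ((σ ^ (k : ℕ)) r) = (σ ^ (s + (k : ℕ))) r
        rw [pow_add]
        rfl
      show ind A (e k) * f (Pi.single ((σ ^ s) (e k)) 1) +
        ind A (st (e k)) * f (Pi.single ((σ ^ s) (st (e k))) 1) = _
      rw [← hσst, hFst, h5, hy]
      ring
    rw [Finset.sum_congr rfl fun k _ => h4 k] at h3
    have h6 := congrArg (fun q : ℚ => (q : ℂ)) h3
    simp only [Rat.cast_sum, Rat.cast_mul, Rat.cast_zero] at h6
    exact h6
  have hYper : ∀ m, Y (m + n) = Y m := by
    intro m
    rw [hY]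
    simp only
    rw [hper]
  have hzero := eq_zero_of_conv' hn y huv (fun m => Y m - Y (m + 1)) (by
    intro m
    show Y (m + n) - Y (m + n + 1) = Y m - Y (m + 1)
    rw [hYper, show m + n + 1 = m + 1 + n by ring, hYper]) (by
    intro s
    have h1 := hsum s
    have h2 := hsum (s + 1)
    rw [← sub_zero (0 : ℂ)]
    nth_rewrite 1 [← h1]
    rw [← h2, ← Finset.sum_sub_distrib]
    refine Finset.sum_congr rfl fun k _ => ?_
    rw [mul_sub, show s + 1 + (k : ℕ) = s + (k : ℕ) + 1 by ring]) (by
    rw [Finset.sum_range_sub', ← zero_add n, hYper, sub_self])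
  have h1 := hzero 0 hn.pos
  simp only [zero_add] at h1
  rw [hY] at h1
  simp only at h1
  rw [map_sub]
  exact_mod_cast h1

end Pool.Agent.H320R.OH
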