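import Pool.Agent.H320R.OH.SymCore

/-!
# No isotropic relations between the roots of an irreducible polynomial of degree `2 m`
-/

set_option autoImplicit false
set_option linter.unusedSectionVars false

namespace Pool.Agent.H320R.OH

open Finset Polynomial

theorem no_isotropic (H : ℚ[X]) (hirr : Irreducible H) {m : ℕ} (hm : m.Prime) (hodd : Odd m)
    (hdeg : H.natDegree = 2 * m) {p : ℕ} (hp1 : 1 < p) (w : ℕ)
    (hpure : ∀ z ∈ (H.map (algebraMap ℚ ℂ)).roots, ‖z‖ ^ 2 = (p : ℝ) ^ w) {A : Multiset ℂ}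
    (hA : A + A.map (fun z => ((p ^ w : ℕ) : ℂ) / z) ≤ (H.map (algebraMap ℚ ℂ)).roots)
    (hA0 : 0 < Multiset.card A) (heven : Even (Multiset.card A)) (hAp : IsPower p A.prod) :
    ∃ z ∈ (H.map (algebraMap ℚ ℂ)).roots, ∃ z' ∈ (H.map (algebraMap ℚ ℂ)).roots, z ≠ z' ∧
      ∃ N : ℕ, 0 < N ∧ z ^ N = z' ^ N := by
  classical
  have hp : (p : ℂ) ≠ 0 := by
    have : p ≠ 0 := by omega
    exact_mod_cast this
  have hpR : (0 : ℝ) < p := by
    have : 0 < p := by omega
    exact_mod_cast this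
  have hsep : H.Separable := hirr.separable
  have hH0 : H ≠ 0 := hsep.ne_zero
  have hroots : ∀ x : ℂ, x ∈ (H.map (algebraMap ℚ ℂ)).roots ↔ x ∈ H.rootSet ℂ := by
    intro x
    rw [mem_rootSet, mem_roots (map_ne_zero hH0), IsRoot.def, eval_map_algebraMap]
    exact ⟨fun h => ⟨hH0, h⟩, fun h => h.2⟩
  have hnod : (H.map (algebraMap ℚ ℂ)).roots.Nodup := nodup_roots hsep.map
  have hAle : A ≤ (H.map (algebraMap ℚ ℂ)).roots := (Multiset.le_add_right _ _).trans hA
  have hAAnod := Multiset.nodup_of_le hA hnod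
  have hAnod : A.Nodup := Multiset.nodup_of_le hAle hnod
  have hzz : ∀ i : H.rootSet ℂ, (i : ℂ) * starRingEnd ℂ (i : ℂ) = ((p ^ w : ℕ) : ℂ) := by
    intro i
    rw [Complex.mul_conj, Complex.normSq_eq_norm_sq, hpure _ ((hroots _).2 i.2)]
    push_cast
    rfl
  have hpw : ((p ^ w : ℕ) : ℂ) ≠ 0 := by
    push_cast
    exact pow_ne_zero _ hp
  have hz : ∀ i : H.rootSet ℂ, (i : ℂ) ≠ 0 := by
    intro i h
    have h1 := hzz i
    rw [h, zero_mul] at h1
    exact hpw h1.symm
  have hconj : ∀ x : ℂ, x ∈ H.rootSet ℂ → starRingEnd ℂ x ∈ H.rootSet ℂ := by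
    intro x hx
    rw [mem_rootSet] at hx ⊢
    refine ⟨hH0, ?_⟩
    have h1 : aeval (starRingEnd ℂ x) H = starRingEnd ℂ (aeval x H) := by
      rw [aeval_def, aeval_def, hom_eval₂]
      congr 1
      exact Subsingleton.elim _ _
    rw [h1, hx.2, map_zero]
  set st : H.rootSet ℂ → H.rootSet ℂ := fun i => ⟨starRingEnd ℂ (i : ℂ), hconj _ i.2⟩ with hst
  have hstv : ∀ i, ((st i : H.rootSet ℂ) : ℂ) = starRingEnd ℂ (i : ℂ) := fun i => rfl
  have hstst : ∀ i, st (st i) = i := by
    intro i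
    apply Subtype.ext
    rw [hstv, hstv, Complex.conj_conj]
  have hstne : ∀ i, st i ≠ i := by
    intro i h
    have h1 : starRingEnd ℂ (i : ℂ) = i := congrArg Subtype.val h
    have h2 := hzz i
    rw [h1] at h2
    set Q : ℚ[X] := X ^ 2 - C ((p ^ w : ℕ) : ℚ) with hQ
    have hQ0 : Q.natDegree = 2 := natDegree_X_pow_sub_C
    have h3 : aeval (i : ℂ) Q = 0 := by
      rw [hQ, map_sub, map_pow, aeval_X, aeval_C, pow_two, h2]
      simp
    have h4 : aeval (i : ℂ) H = 0 := (mem_rootSet.1 i.2).2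
    have h5 : minpoly ℚ (i : ℂ) ∣ H := minpoly.dvd ℚ _ h4
    have h6 : minpoly ℚ (i : ℂ) ∣ Q := minpoly.dvd ℚ _ h3
    have hint : IsIntegral ℚ (i : ℂ) := by
      apply IsAlgebraic.isIntegral
      exact ⟨H, hH0, h4⟩
    have h7 : H ∣ minpoly ℚ (i : ℂ) := by
      obtain ⟨c, hc⟩ := h5
      rcases hirr.isUnit_or_isUnit hc with h8 | h8
      · exact absurd h8 (minpoly.not_isUnit ℚ (i : ℂ))
      · obtain ⟨u, rfl⟩ := h8
        have h9 : Associated (minpoly ℚ (i : ℂ)) H := ⟨u, hc.symm⟩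
        exact h9.symm.dvd
    have hQne : Q ≠ 0 := by
      intro h0
      rw [h0, natDegree_zero] at hQ0
      omega
    have h8 := natDegree_le_of_dvd (h7.trans h6) hQne
    have := hm.two_le
    rw [hdeg, hQ0] at h8
    omega
  have hcard : Fintype.card (H.rootSet ℂ) = 2 * m := by
    rw [← hdeg]
    exact card_rootSet_eq_natDegree hsep (splits_C H)
  have htr : MulAction.IsPretransitive H.Gal (H.rootSet ℂ) :=
    Polynomial.Gal.galAction_isPretransitive H ℂ hirr
  -- products of two different roots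
  have hpairprod : ∀ i j : H.rootSet ℂ, i ≠ j → ∏ k : H.rootSet ℂ,
      (k : ℂ) ^ (if k = i ∨ k = j then (1 : ℤ) else 0) = (i : ℂ) * (j : ℂ) := by
    intro i j hij
    have h1 : ∀ k : H.rootSet ℂ, (k : ℂ) ^ (if k = i ∨ k = j then (1 : ℤ) else 0) =
        if k ∈ ({i, j} : Finset (H.rootSet ℂ)) then (k : ℂ) else 1 := by
      intro k
      by_cases hk : k = i ∨ k = j
      · rw [if_pos hk, zpow_one, if_pos (by simpa using hk)]
      · rw [if_neg hk, zpow_zero, if_neg (by simpa using hk)]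
    rw [Finset.prod_congr rfl fun k _ => h1 k, Finset.prod_ite_mem, Finset.univ_inter,
      Finset.prod_pair hij]
  have hG : ∀ (g : H.Gal) (i : H.rootSet ℂ), st (g • i) = g • st i := by
    intro g i
    have h1 := gal_rel (p := p) H g⁻¹ (fun k => if k = i ∨ k = st i then (1 : ℤ) else 0) (w : ℤ)
      (by
        rw [hpairprod i (st i) (Ne.symm (hstne i)), hstv, hzz i]
        push_cast
        rw [zpow_natCast])
    have h2 : ∀ k : H.rootSet ℂ, (if g⁻¹ • k = i ∨ g⁻¹ • k = st i then (1 : ℤ) else 0) =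
        if k = g • i ∨ k = g • st i then (1 : ℤ) else 0 := by
      intro k
      simp only [inv_smul_eq_iff]
    simp only [h2] at h1
    have hne2 : g • i ≠ g • st i := fun h => hstne i (MulAction.injective g h).symm
    rw [hpairprod _ _ hne2, zpow_natCast] at h1
    have h3 := hzz (g • i)
    push_cast at h3
    rw [← h1] at h3
    apply Subtype.ext
    rw [hstv]
    exact mul_left_cancel₀ (hz (g • i)) h3
  set A' : Finset (H.rootSet ℂ) := univ.filter (fun i => (i : ℂ) ∈ A) with hA'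
  have hmap : A'.val.map (fun i : H.rootSet ℂ => (i : ℂ)) = A := by
    have h1 : (A'.val.map (fun i : H.rootSet ℂ => (i : ℂ))).Nodup :=
      Multiset.Nodup.map Subtype.val_injective A'.nodup
    rw [h1.ext hAnod]
    intro x
    rw [Multiset.mem_map]
    constructor
    · rintro ⟨i, hi, rfl⟩
      rw [Finset.mem_val, hA', mem_filter] at hi
      exact hi.2
    · intro hx
      have h2 : x ∈ H.rootSet ℂ := (hroots x).1 (Multiset.mem_of_le hAle hx)
      refine ⟨⟨x, h2⟩, ?_, rfl⟩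
      rw [Finset.mem_val, hA', mem_filter]
      exact ⟨mem_univ _, hx⟩
  have hcA : A'.card = Multiset.card A := by
    rw [← hmap, Multiset.card_map]
    rfl
  have hprod : ∏ i ∈ A', (i : ℂ) = A.prod := by
    rw [← hmap]
    rfl
  have hne : A'.Nonempty := by
    rw [← Finset.card_pos, hcA]
    exact hA0
  have hiso : ∀ i ∈ A', st i ∉ A' := by
    intro i hi hi'
    rw [hA', mem_filter] at hi hi'
    have h1 : (st i : ℂ) = ((p ^ w : ℕ) : ℂ) / (i : ℂ) := by
      rw [hstv, eq_div_iff (hz i), mul_comm]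
      exact hzz i
    have h2 : (st i : ℂ) ∈ A.map (fun z => ((p ^ w : ℕ) : ℂ) / z) := by
      rw [h1]
      exact Multiset.mem_map_of_mem _ hi.2
    exact (Multiset.disjoint_left.1 (Multiset.nodup_add.1 hAAnod).2.2) hi'.2 h2
  have hcAm : A'.card < m := by
    have h1 := Multiset.card_le_card hA
    rw [Multiset.card_add, Multiset.card_map, ← (splits_C H).natDegree_eq_card_roots,
      natDegree_map, hdeg] at h1
    rw [hcA]
    rcases Nat.lt_or_ge (Multiset.card A) m with h2 | h2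
    · exact h2
    · exfalso
      have h3 : Multiset.card A = m := by omega
      rw [h3] at heven
      exact (Nat.not_even_iff_odd.2 hodd) heven
  have hinv : Inv H.Gal (relSub p (fun i : H.rootSet ℂ => (i : ℂ)) hp hz) :=
    inv_relSub fun g c a h => gal_rel H g c a h
  have hmem : ind A' ∈ relSub p (fun i : H.rootSet ℂ => (i : ℂ)) hp hz :=
    ind_mem (by rw [hprod]; exact hAp)
  have hpair : ∀ i, (Pi.single i (1 : ℚ) : H.rootSet ℂ → ℚ) + Pi.single (st i) (1 : ℚ) ∈
      relSub p (fun i : H.rootSet ℂ => (i : ℂ)) hp hz := by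
    intro i
    have h1 : ind {i, st i} ∈ relSub p (fun i : H.rootSet ℂ => (i : ℂ)) hp hz := by
      refine ind_mem ⟨1, w, one_pos, ?_⟩
      rw [Finset.prod_pair (Ne.symm (hstne i)), hstv, hzz i, pow_one]
      push_cast
      rw [zpow_natCast]
    rw [ind_eq, Finset.sum_pair (Ne.symm (hstne i))] at h1
    exact h1
  obtain ⟨i, j, hij, N, c, a, hN, hc, hrel⟩ := sym_core (G := H.Gal) hm hodd hcard st hstst hstne
    hG hinv hpair hne hiso hcAm hmem
  refine ⟨i, (hroots _).2 i.2, j, (hroots _).2 j.2, fun h => hij (Subtype.ext h), N, hN, ?_⟩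
  have hci : c i = N := by
    have h1 := hc i
    rw [Pi.sub_apply, Pi.single_eq_same, Pi.single_eq_of_ne hij, sub_zero, mul_one] at h1
    exact_mod_cast h1
  have hcj : c j = -N := by
    have h1 := hc j
    rw [Pi.sub_apply, Pi.single_eq_same, Pi.single_eq_of_ne (Ne.symm hij), zero_sub] at h1
    have h2 : (c j : ℚ) = ((-N : ℤ) : ℚ) := by
      rw [h1]
      push_cast
      ring
    exact_mod_cast h2
  have hck : ∀ k, k ≠ i → k ≠ j → c k = 0 := by
    intro k h1 h2
    have h3 := hc k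
    rw [Pi.sub_apply, Pi.single_eq_of_ne h1, Pi.single_eq_of_ne h2, sub_zero, mul_zero] at h3
    exact_mod_cast h3
  have hr2 : (i : ℂ) ^ (N : ℤ) * (j : ℂ) ^ (-(N : ℤ)) = (p : ℂ) ^ a := by
    rw [← hrel, ← Finset.mul_prod_erase univ _ (mem_univ i),
      ← Finset.mul_prod_erase (univ.erase i) _ (mem_erase.2 ⟨Ne.symm hij, mem_univ j⟩), hci, hcj,
      Finset.prod_eq_one, mul_one]
    intro k hk
    rw [mem_erase, mem_erase] at hk
    rw [hck k hk.2.1 hk.1, zpow_zero]
  have hnorm : ‖(i : ℂ)‖ = ‖(j : ℂ)‖ := by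
    have h1 := hpure _ ((hroots _).2 i.2)
    have h2 := hpure _ ((hroots _).2 j.2)
    rw [← h2] at h1
    exact (pow_left_inj₀ (norm_nonneg _) (norm_nonneg _) two_ne_zero).1 h1
  have ha : a = 0 := by
    have h1 := congrArg norm hr2
    rw [norm_mul, norm_zpow, norm_zpow, norm_zpow, hnorm, ← zpow_add₀ (norm_ne_zero_iff.2 (hz j)),
      add_neg_cancel, zpow_zero, Complex.norm_natCast] at h1
    have h2 : (1 : ℝ) < p := by exact_mod_cast hp1
    exact (zpow_eq_one_iff_right₀ hpR.le h2.ne').1 h1.symm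
  rw [ha, zpow_zero, zpow_neg, zpow_natCast, zpow_natCast] at hr2
  exact (mul_inv_eq_one₀ (pow_ne_zero _ (hz j))).1 hr2

end Pool.Agent.H320R.OH
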